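import Pool.Agent.Run7.h909.T3.Stm

/-!
# Project T3 of helper909, piece NICE (helper352)
-/

set_option autoImplicit false

namespace Run7.h352.T3

open SimpleGraph Run7.h909.TD Run7.h909.T3
open Run7.h909.TT (Orb QT QF Kn Kn_dvd)

section

variable {H V : Type} [Group H] [MulAction H V] {T : SimpleGraph V} {F : Set (ℤ → V)}
  {f : H →* Multiplicative ℤ} {τ : V → ZMod 3}

theorem Tg_adj1 (D : Tri T F) {x a b : V} (h : Tg F x a b) : T.Adj x a := by
  obtain ⟨φ, hφ, h0, h1, h2⟩ := h
  have h3 := D.adj φ hφ 0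
  rw [h0] at h3
  rw [← h1]
  exact h3

theorem Tg_adj2 (D : Tri T F) {x a b : V} (h : Tg F x a b) : T.Adj x b := by
  obtain ⟨φ, hφ, h0, h1, h2⟩ := h
  have h3 := D.adj φ hφ 2
  have h4 : φ (2 + 1) = φ 0 := (D.per φ hφ _ _).2 ⟨1, by norm_num⟩
  rw [h4, h0, h2] at h3
  exact h3.symm

theorem Tg_sym (D : Tri T F) {x a b : V} (h : Tg F x a b) : Tg F x b a := by
  obtain ⟨φ, hφ, h0, h1, h2⟩ := h
  refine ⟨_, D.refl φ hφ, ?_, ?_, ?_⟩
  · show φ (-0) = x
    rw [neg_zero, h0]
  · show φ (-1) = b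
    rw [← h2]
    exact (D.per φ hφ _ _).2 ⟨-1, by norm_num⟩
  · show φ (-2) = a
    rw [← h1]
    exact (D.per φ hφ _ _).2 ⟨-1, by norm_num⟩

theorem Tg_smul (A : Ac H T F) {x a b : V} (h : Tg F x a b) (k : H) :
    Tg F (k • x) (k • a) (k • b) := by
  obtain ⟨φ, hφ, rfl, rfl, rfl⟩ := h
  exact ⟨_, A.face k φ hφ, rfl, rfl, rfl⟩

theorem Tg_smul' (A : Ac H T F) {x a b : V} (h : Tg F x a b) {k : H} (hk : k • x = x) :
    Tg F x (k • a) (k • b) := by
  have := Tg_smul A h k
  rwa [hk] at this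

end

/-- NICE -/
theorem t_NICE : S_NICE := by
  classical
  intro hN1 hN2 H V _ _ T F f τ D hgd
  obtain ⟨m1, hm1, h1⟩ := hN1 H V T F f τ D
  obtain ⟨B, hB⟩ := hN2 H V T F f τ D
  obtain ⟨m2, hm2, h2⟩ := hgd
  have hpos : 0 < m1 * m2 * (B + 1) := Nat.mul_pos (Nat.mul_pos hm1 hm2) (Nat.succ_pos _)
  have hd1 : ∀ z : ℤ, ((m1 * m2 * (B + 1) : ℕ) : ℤ) ∣ z → (m1 : ℤ) ∣ z := fun z hz =>
    dvd_trans ⟨(m2 * (B + 1) : ℤ), by push_cast; ring⟩ hz
  have hd2 : ∀ z : ℤ, ((m1 * m2 * (B + 1) : ℕ) : ℤ) ∣ z → (m2 : ℤ) ∣ z := fun z hz =>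
    dvd_trans ⟨(m1 * (B + 1) : ℤ), by push_cast; ring⟩ hz
  -- an element with a closed walk modulo it is trivial or fixes a vertex of the walk
  have key : ∀ (k : H) (x a : V) (l : List V), l.length ≤ 5 → k • x = x →
      ((m1 * m2 * (B + 1) : ℕ) : ℤ) ∣ vl f k →
      List.IsChain (fun u v => Tg F x u v) (a :: l) → (a :: l).getLast? = some (k • a) →
      (∀ u ∈ a :: l, T.Adj x u) → k = 1 ∨ ∃ u ∈ a :: l, k • u = u := by
    intro k x a l hl hk hd hc hla hadj
    by_cases ht : ∀ u ∈ a :: l, T.Adj x u ∧ ∀ g : H, g • x = x → g • u = u → g = 1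
    · left
      have hb := hB k x a l hl hk hc hla ht
      have h4 : vl f k = 0 := by
        by_contra hne
        have h5 : m1 * m2 * (B + 1) ≤ (vl f k).natAbs :=
          Nat.le_of_dvd (Int.natAbs_pos.2 hne) (Int.natCast_dvd.1 hd)
        have h6 : B + 1 ≤ m1 * m2 * (B + 1) := Nat.le_mul_of_pos_left _ (Nat.mul_pos hm1 hm2)
        omega
      exact D.inj k _ hk ((vl_eq_zero f k).1 h4)
    · right
      push Not at ht
      obtain ⟨u, hu, hu2⟩ := ht
      obtain ⟨g, hg1, hg2, hg3⟩ := hu2 (hadj u hu)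
      exact ⟨u, hu, h1 x u (hadj u hu) ⟨g, hg3, hg1, hg2⟩ k hk (hd1 _ hd)⟩
  refine ⟨m1 * m2 * (B + 1), hpos, ?_, ?_⟩
  · have hcan : ∀ (k : H) (a : V), k • k • a = k • a → k • a = a := fun k a h =>
      smul_left_cancel k h
    constructor
    · intro k x y hxy he
      have h3 : τ ((k : H) • x) = τ x := D.ty k x
      have h4 : (k : H) • x = y := he
      rw [h4] at h3
      exact D.tn x y hxy h3.symm
    · intro k x y hxy hk
      exact h2 k (hd2 _ (Kn_dvd k.2)) x y hxy hk
    · rintro ⟨k, hkn⟩ x a b t1 t2 hk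
      have hk' : k • x = x := hk
      have t2' : Tg F x a (k • b) := t2
      have hd := Kn_dvd hkn
      have t1s := Tg_sym D.tri t1
      rcases key k x b [a, k • b] (by simp) hk' hd (by simp [t1s, t2']) (by simp) (by
        intro u hu
        simp only [List.mem_cons, List.not_mem_nil, or_false] at hu
        rcases hu with rfl | rfl | rfl
        · exact Tg_adj2 D.tri t1
        · exact Tg_adj1 D.tri t1
        · exact Tg_adj2 D.tri t2') with h | ⟨u, hu, hu2⟩
      · left
        show k • a = a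
        rw [h, one_smul]
      · simp only [List.mem_cons, List.not_mem_nil, or_false] at hu
        rcases hu with rfl | rfl | rfl
        · right; exact hu2
        · left; exact hu2
        · right; exact hcan k b hu2
    · rintro ⟨k, hkn⟩ x a b c t1 t2 t3 hk
      have hk' : k • x = x := hk
      have t3' : Tg F x c (k • a) := t3
      have hd := Kn_dvd hkn
      have s1 := Tg_smul' D.ac t1 hk'
      have s2 := Tg_smul' D.ac t2 hk'
      rcases key k x a [b, c, k • a] (by simp) hk' hd (by simp [t1, t2, t3']) (by simp) (by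
        intro u hu
        simp only [List.mem_cons, List.not_mem_nil, or_false] at hu
        rcases hu with rfl | rfl | rfl | rfl
        · exact Tg_adj1 D.tri t1
        · exact Tg_adj1 D.tri t2
        · exact Tg_adj1 D.tri t3'
        · exact Tg_adj2 D.tri t3') with h | ⟨u, hu, hu2⟩
      · rw [h, one_smul] at t3'
        exact D.tri.g3 x a b c t1 t2 t3'
      · simp only [List.mem_cons, List.not_mem_nil, or_false] at hu
        rcases hu with rfl | rfl | rfl | rfl
        · rw [hu2] at t3'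
          exact D.tri.g3 x _ b c t1 t2 t3'
        · rw [hu2] at s1
          exact D.tri.g3 x _ _ _ t2 t3' s1
        · rw [hu2] at s2
          exact D.tri.g3 x _ _ _ t3' s1 s2
        · rw [hcan k a hu2] at t3'
          exact D.tri.g3 x _ b c t1 t2 t3'
    · rintro ⟨k, hkn⟩ x a b c d t1 t2 t3 t4 hk
      have hk' : k • x = x := hk
      have t4' : Tg F x d (k • a) := t4
      have hd := Kn_dvd hkn
      have s1 := Tg_smul' D.ac t1 hk'
      have s2 := Tg_smul' D.ac t2 hk'
      have s3 := Tg_smul' D.ac t3 hk'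
      rcases key k x a [b, c, d, k • a] (by simp) hk' hd (by simp [t1, t2, t3, t4']) (by simp) (by
        intro u hu
        simp only [List.mem_cons, List.not_mem_nil, or_false] at hu
        rcases hu with rfl | rfl | rfl | rfl | rfl
        · exact Tg_adj1 D.tri t1
        · exact Tg_adj1 D.tri t2
        · exact Tg_adj1 D.tri t3
        · exact Tg_adj1 D.tri t4'
        · exact Tg_adj2 D.tri t4') with h | ⟨u, hu, hu2⟩
      · rw [h, one_smul] at t4'
        rcases D.tri.g4 x a b c d t1 t2 t3 t4' with e | e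
        · exact Or.inl ⟨1, by rw [one_smul]; exact e⟩
        · exact Or.inr ⟨1, by rw [one_smul]; exact e⟩
      · simp only [List.mem_cons, List.not_mem_nil, or_false] at hu
        rcases hu with rfl | rfl | rfl | rfl | rfl
        · rw [hu2] at t4'
          rcases D.tri.g4 x _ b c d t1 t2 t3 t4' with e | e
          · exact Or.inl ⟨1, by rw [one_smul]; exact e⟩
          · exact Or.inr ⟨1, by rw [one_smul]; exact e⟩
        · rw [hu2] at s1
          rcases D.tri.g4 x _ _ _ _ t2 t3 t4' s1 with e | e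
          · exact Or.inr ⟨1, by rw [one_smul]; exact e⟩
          · exact Or.inl ⟨⟨k, hkn⟩, e.symm⟩
        · rw [hu2] at s2
          rcases D.tri.g4 x _ _ _ _ t3 t4' s1 s2 with e | e
          · exact Or.inl ⟨⟨k, hkn⟩, e.symm⟩
          · exact Or.inr ⟨⟨k, hkn⟩, e.symm⟩
        · rw [hu2] at s3
          rcases D.tri.g4 x _ _ _ _ t4' s1 s2 s3 with e | e
          · exact Or.inr ⟨⟨k, hkn⟩, e.symm⟩
          · exact Or.inl ⟨1, by rw [one_smul]; exact smul_left_cancel k e⟩
        · rw [hcan k a hu2] at t4'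
          rcases D.tri.g4 x _ b c d t1 t2 t3 t4' with e | e
          · exact Or.inl ⟨1, by rw [one_smul]; exact e⟩
          · exact Or.inr ⟨1, by rw [one_smul]; exact e⟩
    · rintro ⟨k, hkn⟩ x a b c d e t1 t2 t3 t4 t5 hk
      have hk' : k • x = x := hk
      have t5' : Tg F x e (k • a) := t5
      have hd := Kn_dvd hkn
      have s1 := Tg_smul' D.ac t1 hk'
      have s2 := Tg_smul' D.ac t2 hk'
      have s3 := Tg_smul' D.ac t3 hk'
      have s4 := Tg_smul' D.ac t4 hk'
      rcases key k x a [b, c, d, e, k • a] (by simp) hk' hd (by simp [t1, t2, t3, t4, t5'])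
        (by simp) (by
        intro u hu
        simp only [List.mem_cons, List.not_mem_nil, or_false] at hu
        rcases hu with rfl | rfl | rfl | rfl | rfl | rfl
        · exact Tg_adj1 D.tri t1
        · exact Tg_adj1 D.tri t2
        · exact Tg_adj1 D.tri t3
        · exact Tg_adj1 D.tri t4
        · exact Tg_adj1 D.tri t5'
        · exact Tg_adj2 D.tri t5') with h | ⟨u, hu, hu2⟩
      · rw [h, one_smul] at t5'
        exact D.tri.g5 x a b c d e t1 t2 t3 t4 t5'
      · simp only [List.mem_cons, List.not_mem_nil, or_false] at hu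
        rcases hu with rfl | rfl | rfl | rfl | rfl | rfl
        · rw [hu2] at t5'
          exact D.tri.g5 x _ b c d e t1 t2 t3 t4 t5'
        · rw [hu2] at s1
          exact D.tri.g5 x _ _ _ _ _ t2 t3 t4 t5' s1
        · rw [hu2] at s2
          exact D.tri.g5 x _ _ _ _ _ t3 t4 t5' s1 s2
        · rw [hu2] at s3
          exact D.tri.g5 x _ _ _ _ _ t4 t5' s1 s2 s3
        · rw [hu2] at s4
          exact D.tri.g5 x _ _ _ _ _ t5' s1 s2 s3 s4
        · rw [hcan k a hu2] at t5'
          exact D.tri.g5 x _ b c d e t1 t2 t3 t4 t5'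
  · intro x y hxy hex h hh hd
    exact h1 x y hxy hex h hh (hd1 _ hd)

end Run7.h352.T3
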